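import Mathlib
import Pool.Agent.Lib.MP_fcccf2_gt.Defs
import Pool.Agent.Lib.MP_fcccf2_gt.Asym

set_option autoImplicit false

namespace Pool.Agent.Results.MP_fcccf2_gt.Asymptotics

open Pool.Agent.Lib.MP_fcccf2_gt

/-- Two-sided estimate of `n (1 - d(m, n))` for all pairs of dimensions `1 ≤ m < n`. -/
theorem result : ∃ c : ℝ, 0 < c ∧ ∀ m n : ℕ, 1 ≤ m → m < n →
    max (c * ((m : ℝ) + ((m : ℝ) - 1) * Real.log ((n : ℝ) / m)))
        (((m : ℝ) - 1) * Real.log ((n : ℝ) / m) -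
          20 * (m : ℝ) * Real.log (2 + Real.log ((n : ℝ) / m))) ≤ (n : ℝ) * (1 - dGH m n) ∧
      (n : ℝ) * (1 - dGH m n) ≤
        min (3 * ((m : ℝ) + ((m : ℝ) - 1) * Real.log ((n : ℝ) / m)))
          ((m : ℝ) * (Real.log ((n : ℝ) / m) + 3)) := by
  obtain ⟨c, hc, h⟩ := order_lower
  exact ⟨c, hc, fun m n hm hmn => ⟨max_le (h m n hm hmn) (sharp_lower m n hm hmn),
    le_min (order_upper m n hm hmn) (one_sub_dGH_le m n hm hmn)⟩⟩

end Pool.Agent.Results.MP_fcccf2_gt.Asymptotics
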