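import Mathlib
import Pool.Agent.Lib.MP_fcccf2_gt.Defs
import Pool.Agent.Lib.MP_fcccf2_gt.CL.Main
import Pool.Agent.Lib.MP_fcccf2_gt.CL.Final

set_option autoImplicit false

namespace Pool.Agent.Results.MP_fcccf2_gt.ConsecutiveLarge

open Pool.Agent.Lib.MP_fcccf2_gt

/-- The exact distance between the balls of dimensions `m` and `m + 1` for all large `m`. -/
theorem result (m : ℕ) (hm : 10 ^ 45 ≤ m) :
    dGH m (m + 1) =
      1 / (1 + Real.sqrt
        (1 - (1 / ((m / 2 + 1 : ℕ) : ℝ) + 1 / (((m + 1) / 2 + 1 : ℕ) : ℝ)) / 2)) :=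
  le_antisymm
    (CL.dGH_succ_le_of_corr (fun _ _ _ bl δ hB h1 h2 h3 => CL.exists_corr bl hB δ h1 h2 h3) m
      (le_trans (by norm_num) hm))
    (dGH_lower m (m + 1) (lt_of_lt_of_le (by norm_num) hm) (Nat.lt_succ_self m))

end Pool.Agent.Results.MP_fcccf2_gt.ConsecutiveLarge
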