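import Mathlib
import Pool.Agent.Lib.MP_fcccf2_gt.Defs
import Pool.Agent.Lib.MP_fcccf2_gt.TwoThree

set_option autoImplicit false

namespace Pool.Agent.Results.MP_fcccf2_gt.ExactValues

open Pool.Agent.Lib.MP_fcccf2_gt

/-- A lower bound for all pairs of dimensions, attained for the pairs (1, 2) and (2, 3). -/
theorem result (m n : ℕ) (hm : 1 ≤ m) (hmn : m < n) :
    1 / (1 + Real.sqrt (1 - (1 / ((m / 2 + 1 : ℕ) : ℝ) + 1 / (((m + 1) / 2 + 1 : ℕ) : ℝ)) / 2))
        ≤ dGH m n ∧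
      (m ≤ 2 → n = m + 1 → dGH m n =
        1 / (1 + Real.sqrt
          (1 - (1 / ((m / 2 + 1 : ℕ) : ℝ) + 1 / (((m + 1) / 2 + 1 : ℕ) : ℝ)) / 2))) := by
  refine ⟨dGH_lower m n hm hmn, fun h2 hn => le_antisymm ?_ (dGH_lower m n hm hmn)⟩
  subst hn
  change _ ≤ 1 / (1 + Real.sqrt (kapSq m))
  interval_cases m
  · have e : kapSq 1 = (1 / 2) ^ 2 := by norm_num [kapSq]
    rw [e, Real.sqrt_sq (by positivity)]
    exact dGH_one_two_le.trans (by norm_num)
  · have e : kapSq 2 = (Real.sqrt 2 / 2) ^ 2 := by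
      rw [div_pow, Real.sq_sqrt (by norm_num)]
      norm_num [kapSq]
    have h0 := Real.sqrt_nonneg 2
    rw [e, Real.sqrt_sq (by positivity)]
    refine dGH_two_three_le.trans (le_of_eq ?_)
    rw [eq_div_iff (by positivity)]
    have hs : Real.sqrt 2 ^ 2 = 2 := Real.sq_sqrt (by norm_num)
    nlinarith

end Pool.Agent.Results.MP_fcccf2_gt.ExactValues
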