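import Mathlib
import Pool.Agent.Lib.MP_fcccf2_gt.Defs
import Pool.Agent.Lib.MP_fcccf2_gt.Asym

set_option autoImplicit false

namespace Pool.Agent.Results.MP_fcccf2_gt.Segment

open Pool.Agent.Lib.MP_fcccf2_gt

/-- Explicit two-sided bound for the distance from the segment to the `n`-ball. -/
theorem result (n : ℕ) (hn : 2 ≤ n) :
    1 - 1 / (2 * ((n / 2 : ℕ) : ℝ) + 1) ≤ dGH 1 n ∧ dGH 1 n ≤ 1 - 1 / (2 * (n : ℝ) + 1) :=
  ⟨dGH_lower_line n (by omega), dGH_line_le hn⟩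

end Pool.Agent.Results.MP_fcccf2_gt.Segment
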